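import Pool.Agent.helper82.SC.SpecB

/-!
# sp: Cardy part, module PT: connecting sets in the square
-/

namespace Pool.Agent.helper82.SC

open Relation Filter Topology

theorem PT_snoc {W : Set V} {u v w : V} (h : Con W u v) (hw : w ∈ W) (ha : TAdj v w) : Con W u w :=
  ⟨h.1, h.2.tail ⟨ha, hw⟩⟩

theorem PT_mem {W : Set V} {u v : V} (h : Con W u v) : v ∈ W := by
  obtain ⟨h1, h2⟩ := h
  induction h2 with
  | refl => exact h1
  | tail _ h _ => exact h.2

theorem PT_trans {W : Set V} {u v w : V} (h : Con W u v) (h' : Con W v w) : Con W u w :=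
  ⟨h.1, h.2.trans h'.2⟩

theorem PT_symm {W : Set V} {u v : V} (h : Con W u v) : Con W v u := by
  obtain ⟨h1, h2⟩ := h
  induction h2 with
  | refl => exact ⟨h1, ReflTransGen.refl⟩
  | tail h3 h ih =>
    have hb : Con W u _ := ⟨h1, h3⟩
    exact ⟨h.2, ReflTransGen.head ⟨h.1.symm, PT_mem hb⟩ ih.2⟩

/-- the component of `u` in `W` is connected -/
theorem PT_comp (W : Set V) (u : V) : Cnd {w | Con W u w} := by
  have key : ∀ w, Con W u w → Con {w | Con W u w} u w := by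
    intro w hw
    obtain ⟨h1, h2⟩ := hw
    induction h2 with
    | refl => exact ⟨⟨h1, ReflTransGen.refl⟩, ReflTransGen.refl⟩
    | tail h3 h ih => exact PT_snoc ih ⟨h1, h3.tail h⟩ h.1
  intro v hv w hw
  exact PT_trans (PT_symm (key v hv)) (key w hw)

/-- the sites of the square in a box around `u` -/
def PT_W (n : ℕ) (u : V) (M K : ℤ) : Set V :=
  {w | w ∈ Usq n ∧ -M ≤ (2 * w.1 + w.2) - (2 * u.1 + u.2) ∧
    (2 * w.1 + w.2) - (2 * u.1 + u.2) ≤ M ∧ -K ≤ w.2 - u.2 ∧ w.2 - u.2 ≤ K}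

theorem PT_up (n : ℕ) (hn : 1 ≤ n) (u : V) (hu : u ∈ Usq n) (M K j : ℤ) (hM : 1 ≤ M)
    (hj : j ≤ top n) (hK : j - u.2 ≤ K) (hK0 : 0 ≤ K) : ∀ k : ℕ, u.2 + k ≤ j →
    ∃ w, Con (PT_W n u M K) u w ∧ w.2 = u.2 + k ∧ -1 ≤ (2 * w.1 + w.2) - (2 * u.1 + u.2) ∧
      (2 * w.1 + w.2) - (2 * u.1 + u.2) ≤ 1 := by
  intro k
  induction k with
  | zero =>
    intro _
    refine ⟨u, ⟨⟨hu, by omega, by omega, by omega, by omega⟩, ReflTransGen.refl⟩, by simp, by omega,
      by omega⟩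
  | succ k ih =>
    intro hk
    push_cast at hk
    obtain ⟨w, hw, hw2, hw3, hw4⟩ := ih (by omega)
    have hwU : w ∈ Usq n := (PT_mem hw).1
    rw [mem_Usq] at hwU hu
    obtain ⟨w1, w2⟩ := w
    obtain ⟨u1, u2⟩ := u
    simp only at hw2 hw3 hw4 hwU hu hk hK
    by_cases h : (2 * w1 + w2) - (2 * u1 + u2) ≤ 0 ∧ 2 * w1 + w2 + 1 ≤ 2 * n
    · refine ⟨(w1, w2 + 1), PT_snoc hw ⟨?_, ?_⟩ ?_, ?_, ?_, ?_⟩
      · rw [mem_Usq]; simp only; omega
      · simp only; omega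
      · simp [TAdj]
      · simp only; push_cast; omega
      · simp only; omega
      · simp only; omega
    · refine ⟨(w1 - 1, w2 + 1), PT_snoc hw ⟨?_, ?_⟩ ?_, ?_, ?_, ?_⟩
      · rw [mem_Usq]; simp only; omega
      · simp only; omega
      · simp [TAdj]
      · simp only; push_cast; omega
      · simp only; omega
      · simp only; omega

theorem PT_down (n : ℕ) (hn : 1 ≤ n) (u : V) (hu : u ∈ Usq n) (M K j : ℤ) (hM : 1 ≤ M)
    (hj : 0 ≤ j) (hK : u.2 - j ≤ K) (hK0 : 0 ≤ K) : ∀ k : ℕ, j ≤ u.2 - k →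
    ∃ w, Con (PT_W n u M K) u w ∧ w.2 = u.2 - k ∧ -1 ≤ (2 * w.1 + w.2) - (2 * u.1 + u.2) ∧
      (2 * w.1 + w.2) - (2 * u.1 + u.2) ≤ 1 := by
  intro k
  induction k with
  | zero =>
    intro _
    refine ⟨u, ⟨⟨hu, by omega, by omega, by omega, by omega⟩, ReflTransGen.refl⟩, by simp, by omega,
      by omega⟩
  | succ k ih =>
    intro hk
    push_cast at hk
    obtain ⟨w, hw, hw2, hw3, hw4⟩ := ih (by omega)
    have hwU : w ∈ Usq n := (PT_mem hw).1
    rw [mem_Usq] at hwU hu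
    obtain ⟨w1, w2⟩ := w
    obtain ⟨u1, u2⟩ := u
    simp only at hw2 hw3 hw4 hwU hu hk hK
    by_cases h : (2 * w1 + w2) - (2 * u1 + u2) ≤ 0 ∧ 2 * w1 + w2 + 1 ≤ 2 * n
    · refine ⟨(w1 + 1, w2 - 1), PT_snoc hw ⟨?_, ?_⟩ ?_, ?_, ?_, ?_⟩
      · rw [mem_Usq]; simp only; omega
      · simp only; omega
      · simp [TAdj]
      · simp only; push_cast; omega
      · simp only; omega
      · simp only; omega
    · refine ⟨(w1, w2 - 1), PT_snoc hw ⟨?_, ?_⟩ ?_, ?_, ?_, ?_⟩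
      · rw [mem_Usq]; simp only; omega
      · simp only; omega
      · simp [TAdj]
      · simp only; push_cast; omega
      · simp only; omega
      · simp only; omega

theorem PT_hor (n : ℕ) (u v : V) (M K : ℤ) (hv : v ∈ PT_W n u M K) : ∀ (m : ℕ) (w : V),
    w ∈ PT_W n u M K → w.2 = v.2 → (w.1 - v.1).natAbs = m → Con (PT_W n u M K) w v := by
  intro m
  induction m with
  | zero =>
    intro w hw h2 h1
    have : w = v := by
      ext
      · omega
      · exact h2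
    rw [this]
    exact ⟨hv, ReflTransGen.refl⟩
  | succ m ih =>
    intro w hw h2 h1
    obtain ⟨w1, w2⟩ := w
    obtain ⟨v1, v2⟩ := v
    simp only at h1 h2
    obtain ⟨hvU, hv1⟩ := hv
    obtain ⟨hwU, hw1⟩ := hw
    have hvU' := (mem_Usq _ _).1 hvU
    have hwU' := (mem_Usq _ _).1 hwU
    simp only at hvU' hwU' hv1 hw1
    by_cases h : w1 ≤ v1
    · have hs : (w1 + 1, w2) ∈ PT_W n u M K := by
        refine ⟨?_, ?_⟩
        · rw [mem_Usq]; simp only; omega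
        · simp only; omega
      have := ih (w1 + 1, w2) hs h2 (by simp only; omega)
      exact PT_trans (PT_snoc ⟨⟨hwU, hw1⟩, ReflTransGen.refl⟩ hs (by simp [TAdj])) this
    · have hs : (w1 - 1, w2) ∈ PT_W n u M K := by
        refine ⟨?_, ?_⟩
        · rw [mem_Usq]; simp only; omega
        · simp only; omega
      have := ih (w1 - 1, w2) hs h2 (by simp only; omega)
      exact PT_trans (PT_snoc ⟨⟨hwU, hw1⟩, ReflTransGen.refl⟩ hs (by simp [TAdj])) this

theorem PT : PT_stmt := by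
  intro n hn u hu v hv
  set M : ℤ := |(2 * v.1 + v.2) - (2 * u.1 + u.2)| + 1 with hM
  set K : ℤ := |v.2 - u.2| with hK
  have hM1 : 1 ≤ M := by have := abs_nonneg ((2 * v.1 + v.2) - (2 * u.1 + u.2)); omega
  have hK0 : 0 ≤ K := abs_nonneg _
  have hMa := le_abs_self ((2 * v.1 + v.2) - (2 * u.1 + u.2))
  have hMb := neg_abs_le ((2 * v.1 + v.2) - (2 * u.1 + u.2))
  have hKa := le_abs_self (v.2 - u.2)
  have hKb := neg_abs_le (v.2 - u.2)
  have hvW : v ∈ PT_W n u M K := ⟨hv, by omega, by omega, by omega, by omega⟩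
  have hvU := (mem_Usq _ _).1 hv
  have huU := (mem_Usq _ _).1 hu
  have hcon : Con (PT_W n u M K) u v := by
    rcases le_total u.2 v.2 with h | h
    · obtain ⟨w, hw, hw2, -⟩ := PT_up n hn u hu M K v.2 hM1 hvU.2.1 (by omega) hK0
        (v.2 - u.2).toNat (by omega)
      exact PT_trans hw (PT_hor n u v M K hvW _ w (PT_mem hw) (by omega) rfl)
    · obtain ⟨w, hw, hw2, -⟩ := PT_down n hn u hu M K v.2 hM1 hvU.1 (by omega) hK0
        (u.2 - v.2).toNat (by omega)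
      exact PT_trans hw (PT_hor n u v M K hvW _ w (PT_mem hw) (by omega) rfl)
  refine ⟨{w | Con (PT_W n u M K) u w}, fun w hw => (PT_mem hw).1, PT_comp _ _,
    ⟨hcon.1, ReflTransGen.refl⟩, hcon, ?_⟩
  intro w hw
  obtain ⟨-, h1, h2, h3, h4⟩ := PT_mem hw
  have hre : |(ps w - ps u).re| ≤ |(ps u - ps v).re| + 1 / 2 := by
    have e1 : (ps w - ps u).re = (((2 * w.1 + w.2) - (2 * u.1 + u.2) : ℤ) : ℝ) / 2 := by
      simp only [ps, Complex.sub_re]; push_cast; ring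
    have e2 : (ps u - ps v).re = -((((2 * v.1 + v.2) - (2 * u.1 + u.2) : ℤ) : ℝ) / 2) := by
      simp only [ps, Complex.sub_re]; push_cast; ring
    have e3 : |(((2 * w.1 + w.2) - (2 * u.1 + u.2) : ℤ) : ℝ)| ≤ (M : ℝ) := by
      rw [← Int.cast_abs]
      exact_mod_cast abs_le.2 ⟨h1, h2⟩
    have e4 : (M : ℝ) = |(((2 * v.1 + v.2) - (2 * u.1 + u.2) : ℤ) : ℝ)| + 1 := by
      rw [← Int.cast_abs, hM]
      push_cast
      ring
    rw [e1, e2, abs_neg, abs_div, abs_div, abs_of_pos (two_pos : (0 : ℝ) < 2)]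
    linarith
  have him : |(ps w - ps u).im| ≤ |(ps u - ps v).im| := by
    have e1 : (ps w - ps u).im = Real.sqrt 3 / 2 * ((w.2 - u.2 : ℤ) : ℝ) := by
      simp only [ps, Complex.sub_im]; push_cast; ring
    have e2 : (ps u - ps v).im = -(Real.sqrt 3 / 2 * ((v.2 - u.2 : ℤ) : ℝ)) := by
      simp only [ps, Complex.sub_im]; push_cast; ring
    have e3 : |((w.2 - u.2 : ℤ) : ℝ)| ≤ |((v.2 - u.2 : ℤ) : ℝ)| := by
      rw [← Int.cast_abs, ← Int.cast_abs]
      exact_mod_cast abs_le.2 ⟨h3, h4⟩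
    rw [e1, e2, abs_neg, abs_mul, abs_mul]
    exact mul_le_mul_of_nonneg_left e3 (abs_nonneg _)
  have h5 := Complex.norm_le_abs_re_add_abs_im (ps w - ps u)
  have h6 := Complex.abs_re_le_norm (ps u - ps v)
  have h7 := Complex.abs_im_le_norm (ps u - ps v)
  linarith

end Pool.Agent.helper82.SC
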